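import Pool.Agent.Lib.MP_958bd4_lc.Topo
import Pool.Agent.Lib.MP_958bd4_lc.Discrete
import Pool.Agent.Lib.MP_958bd4_lc.Exists

/-!
# Independent field topologies need not be independent on curves

Let `K` be a field of characteristic zero and of infinite transcendence degree over `ℚ`, and let
`τ` be any V-topology on `K` (for instance a t-henselian topology, or any valuation topology on an
algebraically closed field).  We construct a local subring `R` of `K` with fraction field `K`,
whose ring topology is a Hausdorff nondiscrete field topology independent of `τ`, but such that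
the topology it induces on the `K`-points of every variety without rational curves (for instance
every Fermat curve of degree at least three) is discrete.  Hence the two topologies are not
independent on the points of these curves.
-/

namespace Pool.Agent.Results.MP_958bd4_lc.CurveIndependenceFails

open Pool.Agent.Lib.MP_958bd4_lc

theorem result {K : Type*} [Field K] [CharZero K]
    (hK : ∃ b : ℕ → K, AlgebraicIndependent ℚ b)
    (τ : TopologicalSpace K) (hτ : IsVTopology τ) :
    ∃ R : Subring K,
      IsLocalRing R ∧ IsFractionRing R K ∧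
      @IsTopologicalDivisionRing K _ (ringTopology R) ∧
      @T2Space K (ringTopology R) ∧ ¬ @DiscreteTopology K (ringTopology R) ∧
      Independent τ (ringTopology R) ∧
      (∀ (m : ℕ) (S : Finset (MvPolynomial (Fin m) K)), NoRationalCurve S →
        @DiscreteTopology (Points S) (pointsTopology (ringTopology R) S) ∧
        ((Points S).Nontrivial →
          ¬ Independent (pointsTopology τ S) (pointsTopology (ringTopology R) S))) ∧
      ∀ n : ℕ, 3 ≤ n → NoRationalCurve (fermat K n) ∧
        ¬ Independent (pointsTopology τ (fermat K n))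
          (pointsTopology (ringTopology R) (fermat K n)) := by
  -- neighbourhoods of zero
  obtain ⟨U₂, hU₂, h1⟩ : ∃ U ∈ @nhds K τ 0, (1 : K) ∉ U := by
    let _ := τ
    have := hτ.t2
    exact ⟨{1}ᶜ, isOpen_compl_singleton.mem_nhds (by simp), by simp⟩
  have hdiff : ∀ U ∈ @nhds K τ 0, ∃ W ∈ @nhds K τ 0, ∀ x ∈ W, ∀ y ∈ W, x - y ∈ U := by
    intro U hU
    let _ := τ
    have := hτ.field
    have hc : Filter.Tendsto (fun p : K × K => p.1 - p.2) (nhds (0, 0)) (nhds 0) := by
      have : Continuous fun p : K × K => p.1 - p.2 := by fun_prop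
      simpa using this.tendsto (0, 0)
    have h2 := hc hU
    rw [Filter.mem_map, nhds_prod_eq, Filter.mem_prod_same_iff] at h2
    obtain ⟨W, hW, hWs⟩ := h2
    exact ⟨W, hW, fun x hx y hy => hWs (Set.mk_mem_prod hx hy)⟩
  obtain ⟨U₁, hU₁, hs₁⟩ := hdiff U₂ hU₂
  obtain ⟨U₀, hU₀, hs₀⟩ := hdiff U₁ hU₁
  obtain ⟨T, hT⟩ := exists_tower hK hs₁ h1
  have good : Good T.ring (T.w 0) :=
    ⟨T.exists_div, T.w_mem 0, T.w_ne_zero 0, fun r hr => T.inv_one_add hr⟩
  have hunb : ∀ e : K, e ≠ 0 → ∃ r ∈ T.ring, e * r ∉ U₁ := by
    intro e he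
    obtain ⟨n, hn⟩ := T.cover e
    obtain ⟨x, hx, hxw⟩ := hT n
    refine ⟨x / e * T.w n, T.mul_w_mem (div_mem hx hn), ?_⟩
    rwa [← mul_assoc, mul_div_cancel₀ _ he]
  have hdisc : ∀ (m : ℕ) (S : Finset (MvPolynomial (Fin m) K)), NoRationalCurve S →
      @DiscreteTopology (Points S) (pointsTopology (ringTopology T.ring) S) :=
    fun m S hS => discreteTopology_points fun P _ => T.isolated hS P
  refine ⟨T.ring, T.isLocalRing, ?_, good.isTopologicalDivisionRing, good.t2,
    good.nondiscrete, good.independent hτ hU₀ hs₀ hunb, fun m S hS => ⟨hdisc m S hS, fun hn =>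
    not_independent_of_discrete hτ.t2 (hdisc m S hS) hn⟩, fun n hn =>
    ⟨noRationalCurve_fermat hn, not_independent_of_discrete hτ.t2
      (hdisc 2 _ (noRationalCurve_fermat hn)) (nontrivial_fermat hn)⟩⟩
  refine IsFractionRing.of_field T.ring K fun x => ?_
  obtain ⟨a, ha, b, hb, -, h⟩ := T.exists_div x
  exact ⟨⟨a, ha⟩, ⟨b, hb⟩, h⟩

end Pool.Agent.Results.MP_958bd4_lc.CurveIndependenceFails
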