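import Pool.Agent.Lib.MP_958bd4_lc.Main

/-!
# MP_958bd4_lc: the Shelah conjecture implies the generalized henselianity conjecture

The definitions `HasIP`, `IsNIP`, `IsNIPRing`, `IsDefinable` are in
`Pool/Agent/Lib/MP_958bd4_lc/Statement.lean`.
-/

set_option autoImplicit false

universe u

namespace Pool.Agent.Results.MP_958bd4_lc.ShelahImpliesGHC

open Pool.Agent.Lib.MP958bd4

/-- Assume that every NIP field is finite, separably closed, real closed, or has a nontrivial
henselian valuation whose valuation ring is definable with parameters in the language of rings.
Then every NIP integral domain is a henselian local ring. -/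
theorem result
    (hSC : ∀ (K : Type u) [Field K], IsNIPRing K →
      Finite K ∨ IsSepClosed K ∨ IsRealClosed K ∨
        ∃ O : ValuationSubring K, O ≠ ⊤ ∧ HenselianLocalRing O ∧ IsDefinable K (O : Set K))
    (R : Type u) [CommRing R] [IsDomain R] (hR : IsNIPRing R) : HenselianLocalRing R :=
  main hSC R hR

end Pool.Agent.Results.MP_958bd4_lc.ShelahImpliesGHC
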